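import Pool.Agent.Lib.MP_ab1175_al.HD.Univ

namespace Pool.Agent.Lib.MP_ab1175_al.HD

open Subgroup

variable {L : Set (FreeGroup ℕ)} {Γ R : Type} [Group Γ] [Ring R]

theorem hopf_ring (hL : SmallVar L) {ρ : Γ →* R} (hρ : InVar L (Aff ρ)) (hfg : Group.FG Γ)
    (J : AddSubgroup R) (hJl : ∀ g, ∀ x ∈ J, ρ g * x ∈ J) (t : Γ) (hJr : ∀ x ∈ J, x * ρ t ∈ J)
    (x : R) (hx : x ∈ R0 ρ) (hxt : x * ρ t ∈ J) : x ∈ J := by
  obtain ⟨Xs, hXs, hXfin⟩ := Group.fg_iff.1 hfg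
  let ρ2 : Γ →* R × R := ρ.prod ρ
  have hρ2 : InVar L (Aff ρ2) := by
    refine InVar.of_injective
      ((Aff.map (ρ' := ρ) (MonoidHom.id Γ) (AddMonoidHom.fst R R) fun g x => rfl).prod
        (Aff.map (ρ' := ρ) (MonoidHom.id Γ) (AddMonoidHom.snd R R) fun g x => rfl)) ?_
      (hρ.prod hρ)
    intro a b h
    exact Aff.ext (Prod.ext (congrArg (fun z => z.1.r) h) (congrArg (fun z => z.2.r) h))
      (congrArg (fun z => z.1.g) h)
  let Gt : Subgroup (Aff ρ2) :=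
    { carrier := {a | a.r.1 ∈ R0 ρ ∧ a.r.2 ∈ R0 ρ}
      one_mem' := ⟨zero_mem (R0 ρ), zero_mem (R0 ρ)⟩
      mul_mem' := fun ha hb =>
        ⟨add_mem ha.1 (R0_left ρ _ hb.1), add_mem ha.2 (R0_left ρ _ hb.2)⟩
      inv_mem' := fun ha => ⟨neg_mem (R0_left ρ _ ha.1), neg_mem (R0_left ρ _ ha.2)⟩ }
  let ι : Γ →* Aff ρ2 := MonoidHom.mk' (fun g => ⟨0, g⟩) (fun a b => by ext <;> simp)
  have hfgt : Group.FG Gt := by
    refine (Group.fg_iff_subgroup_fg _).2 ((Subgroup.fg_iff _).2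
      ⟨ι '' Xs ∪ {⟨(1, 0), 1⟩, ⟨(0, 1), 1⟩}, ?_, (hXfin.image _).union (Set.toFinite _)⟩)
    apply le_antisymm
    · refine (Subgroup.closure_le _).2 ?_
      rintro _ (⟨g, -, rfl⟩ | rfl | rfl)
      · exact ⟨zero_mem (R0 ρ), zero_mem (R0 ρ)⟩
      · exact ⟨R0_one ρ, zero_mem (R0 ρ)⟩
      · exact ⟨zero_mem (R0 ρ), R0_one ρ⟩
    · set C := Subgroup.closure (ι '' Xs ∪ {⟨(1, 0), 1⟩, ⟨(0, 1), 1⟩}) with hC
      have h1 : ∀ g, ι g ∈ C := by
        intro g
        have h1 : ι g ∈ (Subgroup.closure Xs).map ι := ⟨g, by rw [hXs]; trivial, rfl⟩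
        rw [MonoidHom.map_closure] at h1
        exact Subgroup.closure_mono Set.subset_union_left h1
      have h2 : ∀ f : R →+ R × R, (∀ g, f (ρ g) = ρ2 g * f 1) → (⟨f 1, 1⟩ : Aff ρ2) ∈ C →
          ∀ r ∈ R0 ρ, (⟨f r, 1⟩ : Aff ρ2) ∈ C := by
        intro f hf h0 r hr
        induction hr using AddSubgroup.closure_induction with
        | mem r hr =>
          obtain ⟨g, rfl⟩ := hr
          have e : (⟨f (ρ g), 1⟩ : Aff ρ2) = ι g * ⟨f 1, 1⟩ * (ι g)⁻¹ := by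
            refine Aff.ext ?_ ?_ <;> simp [ι, hf]
          rw [e]
          exact mul_mem (mul_mem (h1 g) h0) (inv_mem (h1 g))
        | zero => rw [map_zero]; exact one_mem _
        | add a b _ _ ha hb =>
          have e : (⟨f (a + b), 1⟩ : Aff ρ2) = ⟨f a, 1⟩ * ⟨f b, 1⟩ := by
            refine Aff.ext ?_ ?_ <;> simp
          rw [e]; exact mul_mem ha hb
        | neg a _ ha =>
          have e : (⟨f (-a), 1⟩ : Aff ρ2) = (⟨f a, 1⟩ : Aff ρ2)⁻¹ := by
            refine Aff.ext ?_ ?_ <;> simp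
          rw [e]; exact inv_mem ha
      intro a ha
      have e : a = ⟨AddMonoidHom.inl R R a.r.1, 1⟩ * ⟨AddMonoidHom.inr R R a.r.2, 1⟩ * ι a.g := by
        refine Aff.ext ?_ ?_ <;> simp [ι]
      rw [e]
      exact mul_mem (mul_mem
        (h2 (AddMonoidHom.inl R R) (fun g => by simp [ρ2])
          (Subgroup.subset_closure (Or.inr (Or.inl rfl))) _ ha.1)
        (h2 (AddMonoidHom.inr R R) (fun g => by simp [ρ2])
          (Subgroup.subset_closure (Or.inr (Or.inr rfl))) _ ha.2))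
        (h1 _)
  let i : Multiplicative (R0 ρ) × Multiplicative (R0 ρ) →* Gt := MonoidHom.mk'
    (fun z => ⟨⟨(z.1.toAdd, z.2.toAdd), 1⟩, z.1.toAdd.2, z.2.toAdd.2⟩)
    (fun a b => Subtype.ext (Aff.ext (by simp) (by simp)))
  have hi : Function.Injective i := fun a b h =>
    Prod.ext (Subtype.ext (congrArg (fun z => z.1.r.1) h))
      (Subtype.ext (congrArg (fun z => z.1.r.2) h))
  let α : Multiplicative (R0 ρ) →* Multiplicative (R0 ρ) := AddMonoidHom.toMultiplicative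
    (((AddMonoidHom.mulRight (ρ t)).comp (R0 ρ).subtype).codRestrict _ fun a => R0_right ρ t a.2)
  have hα : Function.Surjective α := by
    intro a
    refine ⟨Multiplicative.ofAdd ⟨a.toAdd.1 * ρ t⁻¹, R0_right ρ _ a.toAdd.2⟩, Subtype.ext ?_⟩
    show a.toAdd.1 * ρ t⁻¹ * ρ t = a.toAdd.1
    rw [mul_assoc, ← map_mul, inv_mul_cancel, map_one, mul_one]
  refine dbl hL (hρ2.subgroup Gt) hfgt i hi α hα (J.addSubgroupOf (R0 ρ)).toSubgroup
    (fun a ha => hJr _ ha) (fun g => ⟨AddMonoidHom.toMultiplicative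
      (((AddMonoidHom.mulLeft (ρ g.1.g)).comp (R0 ρ).subtype).codRestrict _
        fun a => R0_left ρ _ a.2), fun a b => Subtype.ext (Aff.ext ?_ ?_),
      fun a => Subtype.ext (mul_assoc _ _ _).symm, fun a ha => hJl _ _ ha⟩)
    (Multiplicative.ofAdd ⟨x, hx⟩) hxt
  · show g.1.r + ρ2 g.1.g * (a.toAdd.1, b.toAdd.1) +
      ρ2 (g.1.g * 1) * -(ρ2 g.1.g⁻¹ * g.1.r) = ρ2 g.1.g * (a.toAdd.1, b.toAdd.1)
    rw [mul_one, mul_neg, ← mul_assoc, ← map_mul, mul_inv_cancel, map_one, one_mul]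
    abel
  · show g.1.g * 1 * g.1.g⁻¹ = 1
    group

theorem nilAct_unip (hL : SmallVar L) {ρ : Γ →* R} (hρ : InVar L (Aff ρ)) (hfg : Group.FG Γ)
    (hmax : NFG (⊥ : Subgroup Γ) ⊤) {N B : Subgroup Γ} (hN : PA N) [B.Normal] (hBN : B ≤ N)
    (hc : ∀ b ∈ B, ∀ n ∈ N, b * n = n * b) :
    ∃ B₁ : Subgroup Γ, B₁.Normal ∧ B₁ ≤ B ∧ NilAct ρ B₁ ∧
      ∀ b ∈ B, IsNilpotent (ρ b - 1) → b ∈ B₁ := by
  have hcomm : ∀ a ∈ B, ∀ b ∈ B, Commute (ρ a) (ρ b) := fun a ha b hb =>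
    Commute.map (hc a ha b (hBN hb)) ρ
  have hinv : ∀ g : Γ, ρ g * ρ g⁻¹ = 1 := fun g => by rw [← map_mul, mul_inv_cancel, map_one]
  have hinv' : ∀ g : Γ, ρ g⁻¹ * ρ g = 1 := fun g => by rw [← map_mul, inv_mul_cancel, map_one]
  let B₁ : Subgroup Γ :=
    { carrier := {b | b ∈ B ∧ IsNilpotent (ρ b - 1)}
      one_mem' := ⟨one_mem _, by simp⟩
      mul_mem' := by
        rintro a b ⟨ha, ha'⟩ ⟨hb, hb'⟩
        refine ⟨mul_mem ha hb, ?_⟩
        have e : ρ (a * b) - 1 = ρ a * (ρ b - 1) + (ρ a - 1) := by rw [map_mul]; noncomm_ring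
        have c1 : Commute (ρ a) (ρ b - 1) := (hcomm a ha b hb).sub_right (Commute.one_right _)
        rw [e]
        refine Commute.isNilpotent_add ?_ (c1.isNilpotent_mul_left hb') ha'
        exact Commute.mul_left ((Commute.refl _).sub_right (Commute.one_right _))
          (c1.symm.sub_right (Commute.one_right _))
      inv_mem' := by
        rintro a ⟨ha, ha'⟩
        refine ⟨inv_mem ha, ?_⟩
        have e : ρ a⁻¹ - 1 = -(ρ a⁻¹ * (ρ a - 1)) := by rw [mul_sub, hinv']; noncomm_ring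
        rw [e]
        exact (((hcomm _ (inv_mem ha) a ha).sub_right
          (Commute.one_right _)).isNilpotent_mul_left ha').neg }
  have hB₁n : B₁.Normal := by
    refine ⟨fun b hb g => ⟨Normal.conj_mem inferInstance b hb.1 g, ?_⟩⟩
    obtain ⟨n, hn⟩ := hb.2
    refine ⟨n, ?_⟩
    have e : ρ (g * b * g⁻¹) - 1 = ρ g * (ρ b - 1) * ρ g⁻¹ := by
      rw [map_mul, map_mul, mul_sub, sub_mul, mul_one, hinv]
    have h2 : ∀ k : ℕ, (ρ g * (ρ b - 1) * ρ g⁻¹) ^ k = ρ g * (ρ b - 1) ^ k * ρ g⁻¹ := by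
      intro k
      induction k with
      | zero => simp [hinv]
      | succ k ih =>
        rw [pow_succ, ih, pow_succ]
        calc ρ g * (ρ b - 1) ^ k * ρ g⁻¹ * (ρ g * (ρ b - 1) * ρ g⁻¹)
            = ρ g * (ρ b - 1) ^ k * (ρ g⁻¹ * ρ g) * (ρ b - 1) * ρ g⁻¹ := by noncomm_ring
          _ = _ := by rw [hinv']; noncomm_ring
    rw [e, h2, hn]; simp
  refine ⟨B₁, hB₁n, fun b hb => hb.1, ?_, fun b hb h => ⟨hb, h⟩⟩
  obtain ⟨F, hF, hFB, hBF⟩ := hmax B₁ hB₁n bot_le le_top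
  rw [bot_sup_eq] at hBF
  let J : Set Γ → AddSubgroup R := fun s =>
    AddSubgroup.closure {z | ∃ y ∈ s, ∃ g, z = ρ g * (ρ y - 1)}
  have J_le : ∀ s (W : AddSubgroup R), (∀ y ∈ s, ∀ g, ρ g * (ρ y - 1) ∈ W) → J s ≤ W := by
    intro s W h
    refine (AddSubgroup.closure_le _).2 ?_
    rintro _ ⟨y, hy, g, rfl⟩
    exact h y hy g
  have J_left : ∀ s g, ∀ z ∈ J s, ρ g * z ∈ J s := by
    intro s g
    refine J_le s ((J s).comap (AddMonoidHom.mulLeft (ρ g))) fun y hy k => ?_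
    refine AddSubgroup.subset_closure ⟨y, hy, g * k, ?_⟩
    simp [mul_assoc]
  have J_ext : ∀ s, ∀ y ∈ s, ρ y - 1 ∈ J s := fun s y hy =>
    AddSubgroup.subset_closure ⟨y, hy, 1, by simp⟩
  have hconj : ∀ g y, (ρ y - 1) * ρ g⁻¹ = ρ g⁻¹ * (ρ (g * y * g⁻¹) - 1) := by
    intro g y
    rw [map_mul, map_mul, mul_sub, sub_mul, ← mul_assoc, ← mul_assoc, hinv', one_mul, one_mul,
      mul_one]
  have J_right : ∀ s g (W : AddSubgroup R), (∀ k, ∀ z ∈ W, ρ k * z ∈ W) →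
      (∀ y ∈ s, ρ (g * y * g⁻¹) - 1 ∈ W) → ∀ z ∈ J s, z * ρ g⁻¹ ∈ W := by
    intro s g W hW hs
    refine J_le s (W.comap (AddMonoidHom.mulRight (ρ g⁻¹))) fun y hy k => ?_
    show ρ k * (ρ y - 1) * ρ g⁻¹ ∈ W
    rw [mul_assoc, hconj]
    exact hW _ _ (hW _ _ (hs y hy))
  obtain ⟨F', hF', hFF, horb, hall⟩ := orbit_fg (fun g x : Γ => g * x * g⁻¹) (by simp)
    (fun g h x => by group) (fun s => {x | ρ x - 1 ∈ J s}) Set.univ (by simp) J_ext
    (fun s t h x hx => J_le s (J t) (fun y hy g => J_left t g _ (h hy)) hx)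
    (fun s x hx => addClosure_fin (fun y z => ∃ g, z = ρ g * (ρ y - 1)) s _ hx)
    (fun g s x hx => by
      have h1 := J_right s g (J ((fun x => g * x * g⁻¹) '' s)) (J_left _)
        (fun y hy => J_ext _ _ (Set.mem_image_of_mem _ hy)) _ hx
      have h2 := J_left _ g _ h1
      rwa [hconj, ← mul_assoc, hinv, one_mul] at h2)
    (fun t s _ hts x hx => by
      refine hopf_ring hL hρ hfg (J s) (J_left s) t⁻¹ (J_right s t (J s) (J_left s) hts) _
        (sub_mem (R0_mem ρ _) (R0_one ρ)) ?_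
      rw [hconj]
      refine J_left s _ _ ?_
      have e : t * (t⁻¹ * x * t⁻¹⁻¹) * t⁻¹ = x := by group
      rw [e]
      exact J_ext s x hx)
    hN F hF (Set.subset_univ _) (fun g hg x hx => by
      have e : g * x * g⁻¹ = x := by rw [← hc x (hFB hx).1 g hg]; group
      show ρ (g * x * g⁻¹) - 1 ∈ J F
      rw [e]
      exact J_ext F x hx)
  have hF'B : F' ⊆ B₁ := by
    intro y hy
    obtain ⟨g, x, hx, rfl⟩ := horb y hy
    exact hB₁n.conj_mem x (hFB hx) g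
  have hBJ : ∀ b ∈ B₁, ρ b - 1 ∈ J F' := by
    let K : Subgroup Γ :=
      { carrier := {x | ρ x - 1 ∈ J F'}
        one_mem' := by simp
        mul_mem' := by
          intro a b ha hb
          have e : ρ (a * b) - 1 = ρ a * (ρ b - 1) + (ρ a - 1) := by rw [map_mul]; noncomm_ring
          show ρ (a * b) - 1 ∈ J F'
          rw [e]
          exact add_mem (J_left _ _ _ hb) ha
        inv_mem' := by
          intro a ha
          have e : ρ a⁻¹ - 1 = -(ρ a⁻¹ * (ρ a - 1)) := by rw [mul_sub, hinv']; noncomm_ring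
          show ρ a⁻¹ - 1 ∈ J F'
          rw [e]
          exact neg_mem (J_left _ _ _ ha) }
    have : normalClosure F ≤ K := by
      refine (Subgroup.closure_le _).2 fun x hx => ?_
      obtain ⟨n, hn, hnt⟩ := Group.mem_conjugatesOfSet_iff.1 hx
      obtain ⟨k, rfl⟩ := isConj_iff.1 hnt
      exact hall k n (hFF hn)
    exact fun b hb => this (hBF hb)
  -- the commutative part
  let _ : CommGroup B := { (inferInstance : Group B) with
    mul_comm := fun a b => Subtype.ext (hc a a.2 b (hBN b.2)) }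
  let e : MonoidAlgebra ℤ B →ₐ[ℤ] R := MonoidAlgebra.lift ℤ R B (ρ.comp B.subtype)
  have he : ∀ b : B, e (MonoidAlgebra.of ℤ B b) = ρ b := fun b => MonoidAlgebra.lift_of _ _
  let I : Ideal (MonoidAlgebra ℤ B) :=
    Ideal.span ((fun b : B => MonoidAlgebra.of ℤ B b - 1) '' (B.subtype ⁻¹' F'))
  have hIfg : I.FG := Submodule.fg_span ((hF'.preimage B.subtype_injective.injOn).image _)
  have hIrad : I ≤ (RingHom.ker e).radical := by
    refine Ideal.span_le.2 ?_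
    rintro _ ⟨b, hb, rfl⟩
    obtain ⟨n, hn⟩ := (hF'B hb).2
    refine ⟨n, ?_⟩
    rw [RingHom.mem_ker, map_pow, map_sub, he, map_one]
    exact hn
  obtain ⟨M, hM⟩ := Ideal.exists_pow_le_of_le_radical_of_fg hIrad hIfg
  let Nn : ℕ → AddSubgroup R := fun j =>
    AddSubgroup.closure {z | ∃ x ∈ I ^ j, ∃ g, z = ρ g * e x}
  have hstep : ∀ j, ∀ b ∈ B₁, ∀ z ∈ Nn j, z * (ρ b - 1) ∈ Nn (j + 1) := by
    intro j b hb
    have : Nn j ≤ (Nn (j + 1)).comap (AddMonoidHom.mulRight (ρ b - 1)) := by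
      refine (AddSubgroup.closure_le _).2 ?_
      rintro _ ⟨x, hx, g, rfl⟩
      show ρ g * e x * (ρ b - 1) ∈ Nn (j + 1)
      have h1 : e x * (ρ b - 1) = (ρ b - 1) * e x := by
        have h0 : ρ b - 1 = e (MonoidAlgebra.of ℤ B ⟨b, hb.1⟩ - 1) := by
          rw [map_sub, he, map_one]
        rw [h0, ← map_mul, ← map_mul, mul_comm]
      rw [mul_assoc, h1, ← mul_assoc]
      refine J_le F' ((Nn (j + 1)).comap (AddMonoidHom.mulRight (e x))) (fun y hy k => ?_)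
        (J_left _ g _ (hBJ b hb))
      refine AddSubgroup.subset_closure
        ⟨(MonoidAlgebra.of ℤ B ⟨y, (hF'B hy).1⟩ - 1) * x, ?_, k, ?_⟩
      · rw [pow_succ']
        exact Ideal.mul_mem_mul (Ideal.subset_span ⟨⟨y, (hF'B hy).1⟩, hy, rfl⟩) hx
      · show ρ k * (ρ y - 1) * e x = _
        rw [map_mul, map_sub, he, map_one, ← mul_assoc]
    exact fun z hz => this hz
  have hall2 : ∀ l : List Γ, (∀ k ∈ l, k ∈ B₁) →
      (l.map fun k => ρ k - 1).prod ∈ Nn l.length := by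
    intro l
    induction l using List.reverseRecOn with
    | nil => intro _; exact AddSubgroup.subset_closure ⟨1, by simp, 1, by simp⟩
    | append_singleton l a ih =>
      intro h
      rw [List.map_append, List.prod_append, List.length_append]
      simp only [List.map_singleton, List.prod_singleton, List.length_singleton]
      exact hstep _ a (h a (by simp)) _ (ih fun k hk => h k (by simp [hk]))
  refine ⟨M, fun l hl hk => ?_⟩
  have h1 := hall2 l hk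
  rw [hl] at h1
  have h2 : Nn M ≤ ⊥ := by
    refine (AddSubgroup.closure_le _).2 ?_
    rintro _ ⟨x, hx, g, rfl⟩
    have : e x = 0 := hM hx
    simp [this]
  exact h2 h1

end Pool.Agent.Lib.MP_ab1175_al.HD
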