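import Pool.Agent.Lib.MP_ab1175_al.Main

namespace Pool.Agent.Lib.MP_ab1175_al.HD

open Subgroup Filter Cardinal

variable {L : Set (FreeGroup ℕ)}

theorem countable_of_fg {H : Type} [Group H] (h : Group.FG H) : Countable H := by
  obtain ⟨α, hα, φ, hφ⟩ := Group.fg_iff_exists_freeGroup_hom_surjective_finite.1 h
  exact hφ.countable

theorem countable_hom {G H : Type} [Group G] [Group H] (hG : Group.FG G) (hH : Group.FG H) :
    Countable (G →* H) := by
  have := countable_of_fg hH
  obtain ⟨S, hS, hfin⟩ := Group.fg_iff.1 hG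
  have := hfin.to_subtype
  refine Function.Injective.countable (f := fun (f : G →* H) (s : S) => f s) fun f g h => ?_
  exact MonoidHom.eq_of_eqOn_dense hS fun s hs => congrFun h ⟨s, hs⟩

/-- a finitely generated group of a small variety has fewer than continuum many normal
subgroups. -/
theorem few (hL : SmallVar L) {G : Type} [Group G] (hG : InVar L G) (hfg : Group.FG G)
    (N : (ℕ → Bool) → Subgroup G) (hn : ∀ ε, (N ε).Normal) : ¬ Function.Injective N := by
  intro hN
  let M : (ℕ → Bool) → FGMember L := fun ε =>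
    ⟨GrpCat.of (G ⧸ N ε), hG.quot (N ε), inferInstance⟩
  let f : (ℕ → Bool) → IsoClass L := fun ε => Quot.mk _ (M ε)
  have hE : Equivalence fun A B : FGMember L => Nonempty (A.1 ≃* B.1) :=
    ⟨fun _ => ⟨MulEquiv.refl _⟩, fun ⟨e⟩ => ⟨e.symm⟩, fun ⟨e⟩ ⟨e'⟩ => ⟨e.trans e'⟩⟩
  have hf : ∀ b, (f ⁻¹' {b}).Countable := by
    rintro ⟨H⟩
    have h1 : ∀ ε : f ⁻¹' {Quot.mk _ H}, ∃ φ : G →* H.1, φ.ker = N ε := by
      rintro ⟨ε, hε⟩
      obtain ⟨e⟩ := hE.eqvGen_iff.1 (Quot.eqvGen_exact hε)
      refine ⟨e.toMonoidHom.comp (QuotientGroup.mk' (N ε)), ?_⟩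
      ext x
      rw [MonoidHom.mem_ker, ← QuotientGroup.eq_one_iff]
      exact e.map_eq_one_iff
    choose φ hφ using h1
    have := countable_hom hfg H.2.2
    exact Function.Injective.countable (f := φ) fun a b h =>
      Subtype.ext (hN (by rw [← hφ a, ← hφ b, h]))
  have h2 := lift_mk_le_lift_mk_mul_of_lift_mk_preimage_le (c := ℵ₀) f fun b => by
    simpa using le_aleph0_iff_set_countable.2 (hf b)
  have h3 : #(IsoClass L) * ℵ₀ < 𝔠 :=
    mul_lt_of_lt aleph0_le_continuum hL aleph0_lt_continuum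
  simp at h2
  exact absurd (h2.trans_lt h3) (lt_irrefl _)

/-- the doubling lemma. -/
theorem dbl (hL : SmallVar L) {G : Type} [Group G] (hG : InVar L G) (hfg : Group.FG G)
    {E : Type} [CommGroup E] (i : E × E →* G) (hi : Function.Injective i) (α : E →* E)
    (hα : Function.Surjective α) (W : Subgroup E) (hW : ∀ a ∈ W, α a ∈ W)
    (hc : ∀ g : G, ∃ φ : E →* E, (∀ a b, g * i (a, b) * g⁻¹ = i (φ a, φ b)) ∧
      (∀ a, φ (α a) = α (φ a)) ∧ ∀ a ∈ W, φ a ∈ W) (a0 : E) (h0 : α a0 ∈ W) : a0 ∈ W := by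
  classical
  by_contra hne
  let A : Monoid.End E := α
  have hA : ∀ j a, (A ^ (j + 1)) a = α ((A ^ j) a) := fun j a => by rw [pow_succ']; rfl
  let t : (ℕ → Bool) → ℕ → E → E := fun ε m a =>
    ∏ j ∈ Finset.range m, if ε j then (A ^ j) a else 1
  have tmul : ∀ ε m a b, t ε m (a * b) = t ε m a * t ε m b := by
    intro ε m a b
    rw [← Finset.prod_mul_distrib]
    refine Finset.prod_congr rfl fun j _ => ?_
    split_ifs <;> simp
  have tinv : ∀ ε m a, t ε m a⁻¹ = (t ε m a)⁻¹ := by
    intro ε m a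
    rw [← Finset.prod_inv_distrib]
    refine Finset.prod_congr rfl fun j _ => ?_
    split_ifs <;> simp
  let S : (ℕ → Bool) → Subgroup (E × E) := fun ε =>
    { carrier := {z | ∀ᶠ m in atTop, (A ^ m) z.1 ∈ W ∧ z.2 / t ε m z.1 ∈ W}
      one_mem' := Eventually.of_forall fun m => by simp [t]
      mul_mem' := fun {a b} ha hb => by
        filter_upwards [ha, hb] with m ha hb
        rw [Prod.fst_mul, Prod.snd_mul, map_mul, tmul, mul_div_mul_comm]
        exact ⟨mul_mem ha.1 hb.1, mul_mem ha.2 hb.2⟩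
      inv_mem' := fun {a} ha => by
        filter_upwards [ha] with m ha
        rw [Prod.fst_inv, Prod.snd_inv, map_inv, tinv, inv_div_inv, ← inv_div]
        exact ⟨inv_mem ha.1, inv_mem ha.2⟩ }
  refine few hL hG hfg (fun ε => (S ε).map i) (fun ε => ⟨?_⟩) fun ε ε' h => ?_
  · rintro _ ⟨⟨a, b⟩, hz, rfl⟩ g
    obtain ⟨φ, h1, h2, h3⟩ := hc g
    have h4 : ∀ j x, (A ^ j) (φ x) = φ ((A ^ j) x) := by
      intro j x
      induction j with
      | zero => rfl
      | succ j ih => rw [hA, hA, ih, h2]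
    refine ⟨(φ a, φ b), ?_, (h1 a b).symm⟩
    filter_upwards [hz] with m hz
    have h5 : t ε m (φ a) = φ (t ε m a) := by
      rw [map_prod]
      refine Finset.prod_congr rfl fun j _ => ?_
      split_ifs <;> simp [h4]
    rw [h4, h5, ← map_div]
    exact ⟨h3 _ hz.1, h3 _ hz.2⟩
  · have hS : S ε = S ε' := Subgroup.map_injective hi h
    by_contra hε
    have hex : ∃ j, ε j ≠ ε' j := Function.ne_iff.1 hε
    let j := Nat.find hex
    have hsurj : ∀ k : ℕ, Function.Surjective fun a => (A ^ k) a := by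
      intro k
      induction k with
      | zero => exact Function.surjective_id
      | succ k ih =>
        intro y
        obtain ⟨x, rfl⟩ := hα y
        obtain ⟨z, rfl⟩ := ih x
        exact ⟨z, hA k z⟩
    obtain ⟨a, (ha : (A ^ j) a = a0)⟩ := hsurj j a0
    have h1 : ∀ m, j + 1 ≤ m → (A ^ m) a ∈ W := by
      intro m hm
      induction m, hm using Nat.le_induction with
      | base => rw [hA, ha]; exact h0
      | succ m _ ih => rw [hA]; exact hW _ ih
    have h2 : ∀ η m, j + 1 ≤ m → t η (j + 1) a / t η m a ∈ W := by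
      intro η m hm
      induction m, hm using Nat.le_induction with
      | base => simp
      | succ m hm ih =>
        have e : t η (m + 1) a = t η m a * if η m then (A ^ m) a else 1 :=
          Finset.prod_range_succ _ _
        rw [e, ← div_div]
        refine div_mem ih ?_
        split_ifs
        · exact h1 m hm
        · exact one_mem _
    have h3 : (a, t ε (j + 1) a) ∈ S ε :=
      (eventually_ge_atTop (j + 1)).mono fun m hm => ⟨h1 m hm, h2 ε m hm⟩
    rw [hS] at h3
    obtain ⟨m, hm, hm'⟩ := (Eventually.and h3 (eventually_ge_atTop (j + 1))).exists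
    have h4 : t ε (j + 1) a / t ε' (j + 1) a ∈ W := by
      have := div_mem hm.2 (h2 ε' m hm')
      rwa [div_div_div_cancel_right] at this
    have h5 : t ε j a = t ε' j a := Finset.prod_congr rfl fun k hk => by
      rw [not_not.1 (Nat.find_min hex (Finset.mem_range.1 hk))]
    have e : ∀ η, t η (j + 1) a = t η j a * if η j then a0 else 1 := fun η => by
      rw [← ha]; exact Finset.prod_range_succ _ _
    rw [e, e, h5, mul_div_mul_left_eq_div] at h4
    have h6 : ε j ≠ ε' j := Nat.find_spec hex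
    apply hne
    cases h7 : ε j <;> cases h8 : ε' j <;> simp_all

end Pool.Agent.Lib.MP_ab1175_al.HD
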