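import Pool.Agent.Lib.MP_ab1175_al.HD.Real

namespace Pool.Agent.Lib.MP_ab1175_al.HD

open Subgroup
open scoped commutatorElement

variable {L : Set (FreeGroup ℕ)} {Γ R : Type} [Group Γ] [Ring R]

theorem action_span (hL : SmallVar L) {ρ : Γ →* R} (hρ : InVar L (Aff ρ)) (hfg : Group.FG Γ)
    (hspan : ∀ r, r ∈ R0 ρ) {N : Subgroup Γ} (hN : PA N) (c : ℕ) (hc : lcs N c = ⊥) :
    ∃ K : Subgroup Γ, PA K ∧ K ≤ N ∧ NilAct ρ K := by
  have hΓ := invar_of_aff hρ
  obtain ⟨K, ⟨hKn, hKN, M, hM⟩, hKmax⟩ := exists_max_nilAct ρ (maxn_of_np hL hΓ hfg hN c hc) N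
  have hinv : ∀ g : Γ, ρ g * ρ g⁻¹ = 1 := fun g => by rw [← map_mul, mul_inv_cancel, map_one]
  have hconj : ∀ g y, (ρ y - 1) * ρ g = ρ g * (ρ (g⁻¹ * y * g⁻¹⁻¹) - 1) := by
    intro g y
    rw [inv_inv, map_mul, map_mul, mul_sub, sub_mul, ← mul_assoc, ← mul_assoc, hinv, one_mul,
      one_mul, mul_one]
  have hright : ∀ W : AddSubgroup R, (∀ g, ∀ x ∈ W, x * ρ g ∈ W) → ∀ r, ∀ x ∈ W, x * r ∈ W := by
    intro W hW r x hx
    have : R0 ρ ≤ W.comap (AddMonoidHom.mulLeft x) := by
      refine (AddSubgroup.closure_le _).2 ?_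
      rintro _ ⟨g, rfl⟩
      exact hW g x hx
    exact this (hspan r)
  let I : Ideal R := Ideal.span ((fun k => ρ k - 1) '' K)
  have hI2 : I.IsTwoSided := ⟨fun {a} b ha => hright I.toAddSubgroup (fun g x hx => by
    show x * ρ g ∈ I
    have hx' : x ∈ I := hx
    clear hx
    induction hx' using Submodule.span_induction with
    | mem x hx =>
      obtain ⟨k, hk, rfl⟩ := hx
      rw [hconj]
      exact I.mul_mem_left _ (Ideal.subset_span ⟨_, hKn.conj_mem k hk g⁻¹, rfl⟩)
    | zero => simp
    | add x y _ _ hx hy => rw [add_mul]; exact add_mem hx hy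
    | smul r x _ hx => rw [smul_eq_mul, mul_assoc]; exact I.mul_mem_left _ hx) b a ha⟩
  let Kj : ℕ → AddSubgroup R := fun j => AddSubgroup.closure
    {z | ∃ l : List Γ, l.length = j ∧ (∀ k ∈ l, k ∈ K) ∧
      ∃ g, z = ρ g * (l.map fun k => ρ k - 1).prod}
  have hlconj : ∀ (g : Γ) (l : List Γ), (l.map fun k => ρ k - 1).prod * ρ g =
      ρ g * ((l.map fun k => g⁻¹ * k * g⁻¹⁻¹).map fun k => ρ k - 1).prod := by
    intro g l
    induction l with
    | nil => simp
    | cons a l ih =>
      simp only [List.map_cons, List.prod_cons]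
      rw [mul_assoc, ih, ← mul_assoc, hconj, mul_assoc]
  have Kr : ∀ j r, ∀ x ∈ Kj j, x * r ∈ Kj j := by
    intro j
    refine hright _ fun g => ?_
    have : Kj j ≤ (Kj j).comap (AddMonoidHom.mulRight (ρ g)) := by
      refine (AddSubgroup.closure_le _).2 ?_
      rintro _ ⟨l, hl, hlK, h, rfl⟩
      refine AddSubgroup.subset_closure ⟨l.map fun k => g⁻¹ * k * g⁻¹⁻¹, by simpa using hl, ?_,
        h * g, ?_⟩
      · intro k hk
        obtain ⟨k, hk', rfl⟩ := List.mem_map.1 hk
        exact hKn.conj_mem k (hlK k hk') g⁻¹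
      · show ρ h * _ * ρ g = _
        rw [mul_assoc, hlconj, map_mul, mul_assoc]
    exact fun x hx => this hx
  have KI : ∀ j, ∀ y ∈ I, ∀ x ∈ Kj j, x * y ∈ Kj (j + 1) := by
    intro j y hy
    induction hy using Submodule.span_induction with
    | mem y hy =>
      obtain ⟨k, hk, rfl⟩ := hy
      have : Kj j ≤ (Kj (j + 1)).comap (AddMonoidHom.mulRight (ρ k - 1)) := by
        refine (AddSubgroup.closure_le _).2 ?_
        rintro _ ⟨l, hl, hlK, h, rfl⟩
        refine AddSubgroup.subset_closure ⟨l ++ [k], by simpa using hl, ?_, h, ?_⟩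
        · intro a ha
          rcases List.mem_append.1 ha with ha | ha
          · exact hlK a ha
          · rw [List.mem_singleton.1 ha]; exact hk
        · show ρ h * _ * (ρ k - 1) = _
          simp [mul_assoc]
      exact fun x hx => this hx
    | zero => intro x _; simp
    | add a b _ _ ha hb => intro x hx; rw [mul_add]; exact add_mem (ha x hx) (hb x hx)
    | smul r a _ ha => intro x hx; rw [smul_eq_mul, ← mul_assoc]; exact ha _ (Kr j r x hx)
  have KM : Kj M ≤ ⊥ := by
    refine (AddSubgroup.closure_le _).2 ?_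
    rintro _ ⟨l, hl, hlK, h, rfl⟩
    simp [hM l hl hlK]
  let π := QuotientGroup.mk' K
  have hπ : Function.Surjective π := QuotientGroup.mk'_surjective K
  let q := Ideal.Quotient.mk I
  let ρ' : Γ ⧸ K →* R ⧸ I := QuotientGroup.lift K (q.toMonoidHom.comp ρ) (fun k hk => by
    show q (ρ k) = 1
    rw [← map_one q]
    exact Ideal.Quotient.eq.2 (Ideal.subset_span ⟨k, hk, rfl⟩))
  have hρπ : ∀ g, ρ' (π g) = q (ρ g) := fun g => rfl
  have hρ' : InVar L (Aff ρ') := by
    refine hρ.of_surjective (Aff.map π q.toAddMonoidHom fun g x => map_mul q _ _) ?_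
    rintro ⟨r, g⟩
    obtain ⟨r, rfl⟩ := Ideal.Quotient.mk_surjective r
    obtain ⟨g, rfl⟩ := hπ g
    exact ⟨⟨r, g⟩, rfl⟩
  have hc' : lcs (N.map π) c = ⊥ := by rw [← lcs_map, hc, Subgroup.map_bot]
  have hmax' := maxn_of_np hL (hΓ.quot K) inferInstance (hN.map π hπ) c hc'
  have hbot := pa_bot hL (hΓ.quot K) inferInstance (N.map π) (by
    intro N' B hN' hN'N hBn hBN hcomm
    obtain ⟨B₁, hB₁n, hB₁B, ⟨M', hM'⟩, hB₁⟩ := nilAct_unip hL hρ' inferInstance hmax' hN' hBN hcomm
    refine recur_of_unip hL hρ' B (fun a ha b hb => hcomm a ha b (hBN hb)) fun b hb hnil => ?_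
    have h1 : ∀ l : List Γ, l.length = M' → (∀ k ∈ l, k ∈ B₁.comap π) →
        (l.map fun k => ρ k - 1).prod ∈ I := by
      intro l hl hk
      have h2 := hM' (l.map π) (by simpa using hl) (by
        intro k hk'
        obtain ⟨k, hk'', rfl⟩ := List.mem_map.1 hk'
        exact hk k hk'')
      rw [← Ideal.Quotient.eq_zero_iff_mem, map_list_prod, ← h2, List.map_map, List.map_map]
      congr 2
    have h3 : ∀ j, ∀ l : List Γ, l.length = M' * j → (∀ k ∈ l, k ∈ B₁.comap π) →
        (l.map fun k => ρ k - 1).prod ∈ Kj j := by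
      intro j
      induction j with
      | zero =>
        intro l hl _
        rw [List.length_eq_zero_iff.1 hl]
        exact AddSubgroup.subset_closure ⟨[], rfl, by simp, 1, by simp⟩
      | succ j ih =>
        intro l hl hk
        rw [← List.take_append_drop (M' * j) l, List.map_append, List.prod_append]
        refine KI j _ (h1 _ ?_ fun k hk' => hk k (List.mem_of_mem_drop hk')) _
          (ih _ ?_ fun k hk' => hk k (List.mem_of_mem_take hk'))
        · rw [List.length_drop, hl, Nat.mul_succ]; omega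
        · rw [List.length_take, hl, Nat.mul_succ]; omega
    have h4 : B₁.comap π ≤ K := by
      refine hKmax ⟨hB₁n.comap π, ?_, M' * M, fun l hl hk => KM (h3 M l hl hk)⟩ ?_
      · refine (comap_mono (hB₁B.trans (hBN.trans hN'N))).trans ?_
        rw [Subgroup.comap_map_eq, QuotientGroup.ker_mk']
        exact sup_le le_rfl hKN
      · intro k hk
        show π k ∈ B₁
        have : π k = 1 := (QuotientGroup.eq_one_iff _).2 hk
        rw [this]; exact one_mem _
    obtain ⟨g, rfl⟩ := hπ b
    exact (QuotientGroup.eq_one_iff _).2 (h4 (hB₁ _ hb hnil))) c _ (hN.map π hπ) le_rfl hc'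
  have h5 := hbot.comap π hπ
  rw [MonoidHom.comap_bot, QuotientGroup.ker_mk'] at h5
  exact ⟨K, h5, hKN, M, hM⟩

theorem action_thm (hL : SmallVar L) {ρ : Γ →* R} (hρ : InVar L (Aff ρ)) (hfg : Group.FG Γ)
    {N : Subgroup Γ} (hN : PA N) (c : ℕ) (hc : lcs N c = ⊥) :
    ∃ K : Subgroup Γ, PA K ∧ K ≤ N ∧ NilAct ρ K := by
  let S : Subring R :=
    { carrier := R0 ρ
      mul_mem' := fun {a b} ha hb => by
        have : R0 ρ ≤ (R0 ρ).comap (AddMonoidHom.mulRight b) := by
          refine (AddSubgroup.closure_le _).2 ?_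
          rintro _ ⟨g, rfl⟩
          exact R0_left ρ g hb
        exact this ha
      one_mem' := R0_one ρ
      add_mem' := add_mem
      zero_mem' := zero_mem _
      neg_mem' := neg_mem }
  let ρ' : Γ →* S := ρ.codRestrict S fun g => R0_mem ρ g
  have hρ' : InVar L (Aff ρ') := by
    refine hρ.of_injective (Aff.map (MonoidHom.id Γ) S.subtype.toAddMonoidHom fun g x => rfl) ?_
    intro x y h
    have h1 := congrArg Aff.r h
    have h2 := congrArg Aff.g h
    exact Aff.ext (Subtype.ext h1) h2
  have hspan : ∀ r, r ∈ R0 ρ' := by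
    rintro ⟨r, hr⟩
    have hr' : r ∈ AddSubgroup.closure (Set.range ρ) := hr
    induction hr' using AddSubgroup.closure_induction with
    | mem x hx => obtain ⟨g, rfl⟩ := hx; exact R0_mem ρ' g
    | zero => exact zero_mem (R0 ρ')
    | add x y hx hy ihx ihy => exact add_mem (ihx hx) (ihy hy)
    | neg x hx ih => exact neg_mem (ih hx)
  obtain ⟨K, a, b, M, hM⟩ := action_span hL hρ' hfg hspan hN c hc
  refine ⟨K, a, b, M, fun l hl hk => ?_⟩
  have := congrArg S.subtype (hM l hl hk)
  rw [map_list_prod, List.map_map, map_zero] at this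
  exact this

theorem np_of_soluble (hL : SmallVar L) (d : ℕ) : ∀ (G : Type) [Group G], InVar L G → Group.FG G →
    derivedSeries G d = ⊥ → ∃ (N : Subgroup G) (c : ℕ), PA N ∧ lcs N c = ⊥ := by
  induction d with
  | zero => exact fun G _ _ _ h => ⟨⊤, 0, PA.top, h⟩
  | succ d ih =>
    intro G _ hG hfg hd
    let A := derivedSeries G d
    have hA : ∀ a ∈ A, ∀ b ∈ A, a * b = b * a := by
      intro a ha b hb
      have h2 : ⁅a, b⁆ ∈ derivedSeries G (d + 1) := commutator_mem_commutator ha hb
      rw [hd, Subgroup.mem_bot] at h2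
      exact commutatorElement_eq_one_iff_mul_comm.1 h2
    let π := QuotientGroup.mk' A
    have hπ : Function.Surjective π := QuotientGroup.mk'_surjective A
    obtain ⟨N, c, hN, hc⟩ := ih (G ⧸ A) (hG.quot A) inferInstance (by
      rw [← map_derivedSeries_eq hπ, Subgroup.map_eq_bot_iff, QuotientGroup.ker_mk'])
    let _ : CommGroup A := { (inferInstance : Group A) with
      mul_comm := fun a b => Subtype.ext (hA a a.2 b b.2) }
    let ρG : G →* AddMonoid.End (Additive A) :=
      { toFun := fun g => MonoidHom.toAdditive (MulAut.conjNormal g : MulAut A).toMonoidHom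
        map_one' := by rw [map_one]; rfl
        map_mul' := fun a b => by rw [map_mul]; rfl }
    have hρG : ∀ g (a : Additive A), ((ρG g a).toMul : G) = g * a.toMul * g⁻¹ := fun _ _ => rfl
    let ρ : G ⧸ A →* AddMonoid.End (Additive A) := QuotientGroup.lift A ρG (fun a ha => by
      refine AddMonoidHom.ext fun x => Additive.toMul.injective (Subtype.ext ?_)
      show a * x.toMul * a⁻¹ = x.toMul
      rw [hA a ha _ x.toMul.2]; group)
    have hρπ : ∀ g, ρ (π g) = ρG g := fun _ => rfl
    have h1 : InVar L (Aff ρG) := by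
      let ψ : Aff ρG →* (Additive A → G) × G := MonoidHom.mk'
        (fun x => (fun a => ((x.r a).toMul : G) * x.g, x.g)) (fun x y => by
          refine Prod.ext (funext fun a => ?_) rfl
          show (((x.r a + ρG x.g (y.r a)).toMul : A) : G) * (x.g * y.g) =
            ((x.r a).toMul : G) * x.g * (((y.r a).toMul : G) * y.g)
          rw [toMul_add, Subgroup.coe_mul, hρG]; group)
      refine InVar.of_injective ψ ?_ ((InVar.pi fun _ => hG).prod hG)
      intro x y h
      have hg : x.g = y.g := congrArg Prod.snd h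
      refine Aff.ext (AddMonoidHom.ext fun a => Additive.toMul.injective (Subtype.ext ?_)) hg
      have h2 : ((x.r a).toMul : G) * x.g = ((y.r a).toMul : G) * y.g :=
        congrFun (congrArg Prod.fst h) a
      rw [hg] at h2
      exact mul_right_cancel h2
    have h2 : InVar L (Aff ρ) := by
      refine h1.of_surjective (Aff.map π (AddMonoidHom.id _) fun g x => rfl) ?_
      rintro ⟨r, g⟩
      obtain ⟨g, rfl⟩ := hπ g
      exact ⟨⟨r, g⟩, rfl⟩
    obtain ⟨K, hK, hKN, M, hM⟩ := action_thm hL h2 inferInstance hN c hc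
    let Z : ℕ → Subgroup G := fun j => Subgroup.map A.subtype
      { carrier := {a | ∀ l : List (G ⧸ A), l.length = j → (∀ k ∈ l, k ∈ K) →
          (l.map fun k => ρ k - 1).prod (Additive.ofMul a) = 0}
        one_mem' := fun l _ _ => map_zero _
        mul_mem' := fun ha hb l h h' => by rw [ofMul_mul, map_add, ha l h h', hb l h h', add_zero]
        inv_mem' := fun ha l h h' => by rw [ofMul_inv, map_neg, ha l h h', neg_zero] }
    have h3 : ∀ i j, i + j = M → lcs (K.comap π) (c + i) ≤ Z j := by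
      intro i
      induction i with
      | zero =>
        intro j hj x hx
        have hxA : x ∈ A := by
          have h4 : π x ∈ lcs N c := by
            refine lcs_mono ((map_comap_le π K).trans hKN) c ?_
            rw [← lcs_map]
            exact ⟨x, hx, rfl⟩
          rw [hc, Subgroup.mem_bot] at h4
          exact (QuotientGroup.eq_one_iff _).1 h4
        refine ⟨⟨x, hxA⟩, fun l hl hk => ?_, rfl⟩
        rw [hM l (by omega) hk]; rfl
      | succ i ihi =>
        intro j hj
        rw [← add_assoc, lcs, Subgroup.commutator_le]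
        intro x hx k hk
        obtain ⟨a, ha, rfl⟩ := ihi (j + 1) (by omega) hx
        refine ⟨(-((ρ (π k) - 1) (Additive.ofMul a))).toMul, fun l hl hlK => ?_, ?_⟩
        · have h5 := ha (l ++ [π k]) (by simp [hl]) (by
            intro z hz
            rcases List.mem_append.1 hz with hz | hz
            · exact hlK z hz
            · rw [List.mem_singleton.1 hz]; exact hk)
          rw [List.map_append, List.prod_append, List.map_singleton, List.prod_singleton] at h5
          rw [ofMul_toMul, map_neg, neg_eq_zero]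
          exact h5
        · show ((k * a * k⁻¹) / a : G)⁻¹ = ⁅(a : G), k⁆
          rw [commutatorElement_def, div_eq_mul_inv]; group
    refine ⟨K.comap π, c + M, hK.comap π hπ, eq_bot_iff.2 ((h3 M 0 rfl).trans ?_)⟩
    rintro _ ⟨a, ha, rfl⟩
    have h6 : Additive.ofMul a = 0 := ha [] rfl (by simp)
    have h7 : a = 1 := h6
    rw [h7]; exact one_mem _

theorem chain_of_nfg {G : Type} [Group G] (h : NFG (⊥ : Subgroup G) ⊤) (N : ℕ → Subgroup G)
    (hn : ∀ n, (N n).Normal) (hm : Monotone N) : ∃ n, ∀ m, n ≤ m → N m = N n := by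
  have hmem : ∀ x ∈ ⨆ n, N n, ∃ n, x ∈ N n := fun x hx =>
    (Subgroup.mem_iSup_of_directed hm.directed_le).1 hx
  obtain ⟨F, hF, hFU, hUF⟩ := h (⨆ n, N n) ⟨fun x hx g => by
    obtain ⟨n, hx⟩ := hmem x hx
    exact le_iSup N n ((hn n).conj_mem x hx g)⟩ bot_le le_top
  have : ∃ n, F ⊆ N n := by
    refine Set.Finite.induction_on_subset F hF ⟨0, by simp⟩ ?_
    rintro a u ha - - ⟨n, hu⟩
    obtain ⟨k, ha'⟩ := hmem a (hFU ha)
    exact ⟨max n k, Set.insert_subset (hm (le_max_right _ _) ha')
      (hu.trans (hm (le_max_left _ _)))⟩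
  obtain ⟨n, hn'⟩ := this
  have := hn n
  exact ⟨n, fun m hnm => le_antisymm ((le_iSup N m).trans (hUF.trans
    (sup_le bot_le (normalClosure_le_normal hn')))) (hm hnm)⟩

theorem hopf_of_chain {G : Type} [Group G] (h : ∀ N : ℕ → Subgroup G, (∀ n, (N n).Normal) →
    Monotone N → ∃ n, ∀ m, n ≤ m → N m = N n) : Hopfian G := by
  intro f hf
  let A : Monoid.End G := f
  have hA : ∀ j a, (A ^ (j + 1)) a = f ((A ^ j) a) := fun j a => by rw [pow_succ']; rfl
  obtain ⟨n, hn⟩ := h (fun n => MonoidHom.ker (A ^ n : Monoid.End G)) (fun n => inferInstance)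
    (monotone_nat_of_le_succ fun n x hx => by
      show (A ^ (n + 1)) x = 1
      rw [hA, show (A ^ n) x = 1 from hx, map_one])
  have hs : ∀ k : ℕ, Function.Surjective fun a => (A ^ k) a := by
    intro k
    induction k with
    | zero => exact Function.surjective_id
    | succ k ih =>
      intro y
      obtain ⟨x, rfl⟩ := hf y
      obtain ⟨z, rfl⟩ := ih x
      exact ⟨z, hA k z⟩
  refine (injective_iff_map_eq_one f).2 fun x hx => ?_
  obtain ⟨y, rfl⟩ := hs n x
  have h1 : y ∈ MonoidHom.ker (A ^ (n + 1) : Monoid.End G) := (hA n y).trans hx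
  rw [hn (n + 1) n.le_succ] at h1
  exact h1

/-- the dichotomy. -/
theorem small_iff (L : Set (FreeGroup ℕ)) (hs : SolubleVar L) :
    SmallVar L ↔ ∀ (G : Type) [Group G], InVar L G → Group.FG G → ∀ N : ℕ → Subgroup G,
      (∀ n, (N n).Normal) → Monotone N → ∃ n, ∀ m, n ≤ m → N m = N n := by
  refine ⟨fun hL G _ hG hfg => ?_, fun h => ?_⟩
  · obtain ⟨d, hd⟩ := hs
    obtain ⟨N, c, hN, hc⟩ := np_of_soluble hL d G hG hfg (hd G hG)
    exact chain_of_nfg (maxn_of_np hL hG hfg hN c hc)
  · have := small_of_hopf L hs fun G _ hG hfg => hopf_of_chain (h G hG hfg)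
    exact Cardinal.mk_le_aleph0.trans_lt Cardinal.aleph0_lt_continuum

end Pool.Agent.Lib.MP_ab1175_al.HD
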