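import Pool.Agent.Lib.MP_ab1175_al.HD.Aff

namespace Pool.Agent.Lib.MP_ab1175_al.HD

open Multiplicative

variable {L : Set (FreeGroup ℕ)} {Γ R : Type} [Group Γ] [Ring R]

theorem recurrent (hL : SmallVar L) {ρ : Γ →* R} (hρ : InVar L (Aff ρ)) {b t : Γ}
    (hgen : Subgroup.closure {b, t} = ⊤) {β : Multiplicative Lam →* Γ} (h : IsReal b t β)
    (p : Ideal LL) (hp : p.IsPrime) (hker : ∀ c, ev ρ β c = 0 → c ∈ p)
    (hi : ∀ i : ℕ, TT (i + 1) ∈ KK p) : (1 : Lam) ∈ KK p := by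
  classical
  by_contra h1
  have hap : ∀ j : ℤ, j ≠ 0 → ∃ i : ℤ, XX (TT i) - XX (TT (i + j)) ∉ p := by
    intro j hj
    by_contra hcon
    push Not at hcon
    rcases lt_or_gt_of_ne hj with hj | hj
    · obtain ⟨n, hn⟩ := Int.eq_ofNat_of_zero_le (by omega : 0 ≤ -j - 1)
      have h2 := KK_sub (hcon (-j))
      rw [neg_add_cancel, TT_zero, show -j = n + 1 by omega] at h2
      exact h1 (by simpa using sub_mem (hi n) h2)
    · obtain ⟨n, hn⟩ := Int.eq_ofNat_of_zero_le (by omega : 0 ≤ j - 1)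
      have h2 := KK_sub (hcon 0)
      rw [zero_add, TT_zero, show j = n + 1 by omega] at h2
      exact h1 (by simpa using add_mem h2 (hi n))
  let I : Ideal LL := Ideal.span (Set.range fun i : ℕ => XX (TT (i + 1)) - 1)
  have hIp : I ≤ p := Ideal.span_le.2 (by rintro _ ⟨i, rfl⟩; exact hi i)
  have hIσ : I ≤ I.comap (subs (TT 1) 1) := Ideal.span_le.2 (by
    rintro _ ⟨i, rfl⟩
    show subs (TT 1) 1 _ ∈ I
    rw [map_sub, map_one, subs_XX, dil_one, ← TT_add]
    refine Ideal.subset_span ⟨i + 1, ?_⟩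
    simp only
    congr 3; push_cast; ring)
  let J : AddSubgroup R := AddSubgroup.closure {z | ∃ j : ℤ, ∃ c ∈ I, z = ρ (t ^ j) * ev ρ β c}
  have J_le : ∀ W : AddSubgroup R, (∀ j : ℤ, ∀ c ∈ I, ρ (t ^ j) * ev ρ β c ∈ W) → J ≤ W := by
    intro W hW
    refine (AddSubgroup.closure_le _).2 ?_
    rintro _ ⟨j, c, hc, rfl⟩
    exact hW j c hc
  have hJt : ∀ k : ℤ, ∀ x ∈ J, ρ (t ^ k) * x ∈ J := by
    intro k
    refine J_le (J.comap (AddMonoidHom.mulLeft (ρ (t ^ k)))) fun j c hc => ?_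
    refine AddSubgroup.subset_closure ⟨k + j, c, hc, ?_⟩
    show ρ (t ^ k) * _ = _
    rw [zpow_add, map_mul, mul_assoc]
  have hJb : ∀ m : Lam, ∀ x ∈ J, ρ (β (ofAdd m)) * x ∈ J := by
    intro m
    refine J_le (J.comap (AddMonoidHom.mulLeft (ρ (β (ofAdd m))))) fun j c hc => ?_
    refine AddSubgroup.subset_closure ⟨j, XX (TT (-j) * m) * c, I.mul_mem_left _ hc, ?_⟩
    show ρ (β (ofAdd m)) * _ = _
    rw [map_mul, ev_XX, h.conj, ← mul_assoc, ← mul_assoc, ← map_mul, ← map_mul]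
    congr 2; group
  have hb : β (ofAdd 1) = b := by rw [← TT_zero, h]; simp
  have hJl : ∀ g, ∀ x ∈ J, ρ g * x ∈ J := by
    intro g
    have hg : g ∈ Subgroup.closure {b, t} := by rw [hgen]; trivial
    induction hg using Subgroup.closure_induction'' with
    | mem g hg =>
      rcases hg with rfl | rfl
      · rw [← hb]; exact hJb 1
      · simpa using hJt 1
    | inv_mem g hg =>
      rcases hg with rfl | rfl
      · rw [← hb, ← map_inv, ← ofAdd_neg]; exact hJb (-1)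
      · simpa using hJt (-1)
    | one => simp
    | mul g k _ _ hg hk =>
      intro x hx
      rw [map_mul, mul_assoc]
      exact hg _ (hk x hx)
  have hcj : ∀ c, ev ρ β c * ρ t⁻¹ = ρ (t ^ (-1 : ℤ)) * ev ρ β (subs (TT 1) 1 c) := by
    intro c
    have h2 := h.ev_conj ρ 1 c
    rw [zpow_one] at h2
    rw [zpow_neg_one]
    calc ev ρ β c * ρ t⁻¹ = ρ t⁻¹ * (ρ t * ev ρ β c) * ρ t⁻¹ := by
          rw [← mul_assoc, ← map_mul, inv_mul_cancel, map_one, one_mul]
      _ = _ := by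
          rw [h2, mul_assoc, mul_assoc, ← map_mul, mul_inv_cancel, map_one, mul_one]
  have hJr : ∀ x ∈ J, x * ρ t⁻¹ ∈ J := by
    refine J_le (J.comap (AddMonoidHom.mulRight (ρ t⁻¹))) fun j c hc => ?_
    show ρ (t ^ j) * ev ρ β c * ρ t⁻¹ ∈ J
    rw [mul_assoc, hcj]
    exact hJt _ _ (AddSubgroup.subset_closure ⟨-1, _, hIσ hc, rfl⟩)
  have hfg : Group.FG Γ := Group.fg_iff.2 ⟨_, hgen, Set.toFinite _⟩
  have hx := hopf_ring hL hρ hfg J hJl t⁻¹ hJr (ev ρ β (XX 1 - 1)) (by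
    rw [map_sub, map_one, ev_XX]; exact sub_mem (R0_mem ρ _) (R0_one ρ)) (by
    rw [hcj]
    refine AddSubgroup.subset_closure ⟨-1, _, ?_, rfl⟩
    rw [map_sub, map_one, subs_XX, dil_one, mul_one]
    exact Ideal.subset_span ⟨0, by simp⟩)
  let Φ : (ℤ →₀ LL) →+ R := Finsupp.liftAddHom fun j =>
    (AddMonoidHom.mulLeft (ρ (t ^ j))).comp (ev ρ β).toAddMonoidHom
  let W : AddSubgroup (ℤ →₀ LL) :=
    { carrier := {c | ∀ j, c j ∈ I}
      zero_mem' := fun j => zero_mem _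
      add_mem' := fun ha hb j => add_mem (ha j) (hb j)
      neg_mem' := fun ha j => neg_mem (ha j) }
  obtain ⟨c, hc, hcx⟩ := J_le (W.map Φ) (fun j c hc => ⟨Finsupp.single j c, fun i => by
    rw [Finsupp.single_apply]; split_ifs
    · exact hc
    · exact zero_mem _, by simp [Φ]⟩) hx
  have hΦ : Φ c = ev ρ β (c 0) + ∑ j ∈ c.support.erase 0, ρ (t ^ j) * ev ρ β (c j) := by
    have e1 : Φ c = ∑ j ∈ insert 0 (c.support.erase 0), ρ (t ^ j) * ev ρ β (c j) := by
      rw [Finsupp.liftAddHom_apply]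
      exact Finsupp.sum_of_support_subset _ (Finset.subset_insert_iff.2 le_rfl) _ (by simp)
    rw [e1, Finset.sum_insert (Finset.notMem_erase _ _)]
    simp
  have h3 := h.relation ρ p hp hker hap _ (c.support.erase 0)
    (fun j => if j = 0 then c 0 - (XX 1 - 1) else c j) rfl (Finset.notMem_erase _ _) (by
      rw [if_pos rfl, map_sub, ← hcx, hΦ]
      have e : ∑ j ∈ c.support.erase 0, ρ (t ^ j) * ev ρ β (if j = 0 then
            (c 0 - (XX 1 - 1)) else c j) = ∑ j ∈ c.support.erase 0, ρ (t ^ j) * ev ρ β (c j) :=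
        Finset.sum_congr rfl fun j hj => by rw [if_neg (Finset.ne_of_mem_erase hj)]
      rw [e]
      abel)
  rw [if_pos rfl] at h3
  exact h1 (by simpa [KK] using sub_mem (hIp (hc 0)) h3)

theorem recur_of_unip (hL : SmallVar L) {ρ : Γ →* R} (hρ : InVar L (Aff ρ)) (B : Subgroup Γ)
    [B.Normal] (hc : ∀ a ∈ B, ∀ b ∈ B, a * b = b * a)
    (hu : ∀ b ∈ B, IsNilpotent (ρ b - 1) → b = 1) : Recur B := by
  have hex : ∀ b ∈ B, ∀ t : Γ, ∃ β, IsReal b t β := fun b hb t =>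
    exists_beta _ fun i j => hc _ (Subgroup.Normal.conj_mem inferInstance b hb _) _
      (Subgroup.Normal.conj_mem inferInstance b hb _)
  have hmem : ∀ b ∈ B, ∀ t β, IsReal b t β → ∀ m, β (ofAdd m) ∈ B := fun b hb t β hβ =>
    beta_mem B fun j => by rw [hβ]; exact Subgroup.Normal.conj_mem inferInstance b hb _
  let 𝔄 : Ideal LL :=
    { carrier := {c | ∀ b ∈ B, ∀ t β, IsReal b t β → ev ρ β c = 0}
      zero_mem' := fun _ _ _ _ _ => map_zero _
      add_mem' := fun ha hb b hbB t β hβ => by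
        rw [map_add, ha b hbB t β hβ, hb b hbB t β hβ, add_zero]
      smul_mem' := fun r c hc b hbB t β hβ => by
        rw [smul_eq_mul, map_mul, hc b hbB t β hβ, mul_zero] }
  obtain ⟨h, hh, e, he⟩ := ca_main 𝔄 (fun g k c hc b hb t β hβ => by
      rw [ev_subs]
      exact hc _ (hmem b hb t β hβ g) _ _ (hβ.comp_sb g k)) (by
    intro p hp hAp hi
    let bb : B × Γ → Γ := fun i => i.1
    let tt : B × Γ → Γ := fun i => i.2
    let Γ0 : Subgroup (B × Γ → Γ) := Subgroup.closure {bb, tt}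
    let b0 : Γ0 := ⟨bb, Subgroup.subset_closure (by simp)⟩
    let t0 : Γ0 := ⟨tt, Subgroup.subset_closure (by simp)⟩
    let π : B × Γ → (Γ0 →* Γ) := fun i => (Pi.evalMonoidHom (fun _ => Γ) i).comp Γ0.subtype
    let ρ0 : Γ0 →* (B × Γ → R) := MonoidHom.pi fun i => ρ.comp (π i)
    have hρ0 : InVar L (Aff ρ0) := by
      refine InVar.of_injective (MonoidHom.pi fun i => Aff.map (ρ' := ρ) (π i)
        (Pi.evalAddMonoidHom (fun _ => R) i) fun g x => rfl) ?_ (InVar.pi fun _ => hρ)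
      intro x y hxy
      refine Aff.ext (funext fun i => congrArg Aff.r (congrFun hxy i))
        (Subtype.ext (funext fun i => congrArg Aff.g (congrFun hxy i)))
    have hgen : Subgroup.closure {b0, t0} = ⊤ := by
      rw [← Subgroup.closure_closure_coe_preimage (k := {bb, tt})]
      congr 1
      ext x
      simp [b0, t0, Subtype.ext_iff]
    obtain ⟨β0, hβ0⟩ : ∃ β, IsReal b0 t0 β := exists_beta _ fun i j => Subtype.ext (funext fun k =>
      hc _ (Subgroup.Normal.conj_mem inferInstance _ k.1.2 (π k (t0 ^ i))) _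
        (Subgroup.Normal.conj_mem inferInstance _ k.1.2 (π k (t0 ^ j))))
    refine recurrent hL hρ0 hgen hβ0 p hp (fun c hc0 => hAp fun b hb t β hβ => ?_) hi
    have e1 : β = (π (⟨b, hb⟩, t)).comp β0 := beta_ext fun j => by
      rw [hβ, MonoidHom.comp_apply, hβ0, map_mul, map_mul, map_inv, map_zpow]; rfl
    have e2 : ev ρ β = (Pi.evalRingHom (fun _ => R) (⟨b, hb⟩, t)).comp (ev ρ0 β0) :=
      LL_ext fun m => by rw [RingHom.comp_apply, ev_XX, ev_XX, e1]; rfl
    rw [e2, RingHom.comp_apply, hc0, map_zero])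
  obtain ⟨w, hw⟩ := exists_word (Γ := Γ) hh
  refine fun t => ⟨w, fun b hb => ?_⟩
  obtain ⟨β, hβ⟩ := hex b hb t
  have h1 := he b hb t β hβ
  rw [map_pow, map_sub, map_one, ev_XX] at h1
  have h2 := hu _ (hmem b hb t β hβ _) ⟨e, h1⟩
  have hb1 : β (ofAdd 1) = b := by rw [← TT_zero, hβ]; simp
  rw [← hw b t β hβ]
  rw [ofAdd_sub, map_div, hb1, div_eq_one] at h2
  exact h2

end Pool.Agent.Lib.MP_ab1175_al.HD
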