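import Pool.Agent.Lib.MP_ab1175_al.HD.Dbl

namespace Pool.Agent.Lib.MP_ab1175_al.HD

open Subgroup
open scoped commutatorElement

variable {L : Set (FreeGroup ℕ)} {Γ : Type} [Group Γ]

theorem univ_orbit (hL : SmallVar L) (hΓ : InVar L Γ) (hfg : Group.FG Γ) {N P : Subgroup Γ}
    (hN : PA N) [P.Normal] (hPN : P ≤ N) (hC : ∀ c ∈ ⁅P, N⁆, ∀ n ∈ N, c * n = n * c)
    (n : Γ) (hn : n ∈ N) :
    ∃ F0 : Set Γ, F0.Finite ∧ ∀ a : Γ, (fun q : P => ⁅a * q * a⁻¹, n⁆) ∈ Subgroup.closure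
      {x : P → Γ | ∃ f ∈ F0, ∃ k : Γ, x = fun q : P => k * ⁅f * q * f⁻¹, n⁆ * k⁻¹} := by
  have := hN.normal
  obtain ⟨Xs, hXs, hXfin⟩ := Group.fg_iff.1 hfg
  let cj : Γ → P → P := fun g q => ⟨g⁻¹ * q * g, by
    simpa using Normal.conj_mem inferInstance _ q.2 g⁻¹⟩
  let A : Γ → ((P → Γ) →* (P → Γ)) := fun g =>
    { toFun := fun x q => x (cj g q)
      map_one' := rfl
      map_mul' := fun _ _ => rfl }
  have A1 : ∀ x, A 1 x = x := by
    intro x; funext q; show x _ = x q; congr 1; apply Subtype.ext; simp [cj]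
  have Amul : ∀ g h x, A (g * h) x = A g (A h x) := by
    intro g h x; funext q; show x _ = x _; congr 1; apply Subtype.ext; simp [cj, mul_assoc]
  let δ : Γ →* (P → Γ) := Pi.constMonoidHom P Γ
  have hδ : ∀ k q, δ k q = k := fun _ _ => rfl
  let y : P → Γ := fun q => q
  let Gt : Subgroup (P → Γ) := Subgroup.closure (δ '' Xs ∪ {y})
  have hδG : ∀ k, δ k ∈ Gt := by
    intro k
    have h1 : δ k ∈ (Subgroup.closure Xs).map δ := ⟨k, by rw [hXs]; trivial, rfl⟩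
    rw [MonoidHom.map_closure] at h1
    exact Subgroup.closure_mono Set.subset_union_left h1
  have hyG : y ∈ Gt := Subgroup.subset_closure (Or.inr rfl)
  have Aδ : ∀ g k, A g (δ k) = δ k := fun _ _ => rfl
  have AG : ∀ g, ∀ x ∈ Gt, A g x ∈ Gt := by
    intro g
    have : Gt ≤ Gt.comap (A g) := by
      refine (Subgroup.closure_le _).2 ?_
      rintro _ (⟨k, -, rfl⟩ | rfl)
      · exact hδG k
      · have e : A g y = (δ g)⁻¹ * y * δ g := rfl
        show A g y ∈ Gt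
        rw [e]
        exact mul_mem (mul_mem (inv_mem (hδG g)) hyG) (hδG g)
    exact fun x hx => this hx
  have hCn : ⁅P, N⁆.Normal := inferInstance
  let Y : Subgroup (P → Γ) :=
    { carrier := {x | x ∈ Gt ∧ (∀ q, x q ∈ ⁅P, N⁆) ∧ x 1 = 1}
      one_mem' := ⟨one_mem _, fun _ => one_mem _, rfl⟩
      mul_mem' := fun ha hb => ⟨mul_mem ha.1 hb.1, fun q => mul_mem (ha.2.1 q) (hb.2.1 q),
        by rw [Pi.mul_apply, ha.2.2, hb.2.2, mul_one]⟩
      inv_mem' := fun ha => ⟨inv_mem ha.1, fun q => inv_mem (ha.2.1 q),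
        by rw [Pi.inv_apply, ha.2.2, inv_one]⟩ }
  have AY : ∀ g, ∀ x ∈ Y, A g x ∈ Y := fun g x hx => ⟨AG g x hx.1, fun q => hx.2.1 _, by
    have e : cj g 1 = 1 := Subtype.ext (by simp [cj])
    show x (cj g 1) = 1
    rw [e, hx.2.2]⟩
  have δY : ∀ k, ∀ x ∈ Y, δ k * x * (δ k)⁻¹ ∈ Y := fun k x hx =>
    ⟨mul_mem (mul_mem (hδG k) hx.1) (inv_mem (hδG k)), fun q => hCn.conj_mem _ (hx.2.1 q) k, by
      show k * x 1 * k⁻¹ = 1
      rw [hx.2.2]; group⟩
  let cl : Set (P → Γ) → Subgroup (P → Γ) := fun s =>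
    Subgroup.closure {z | ∃ x ∈ s, ∃ k, z = δ k * x * (δ k)⁻¹}
  have cl_ext : ∀ s : Set (P → Γ), s ⊆ (cl s : Set (P → Γ)) := fun s x hx =>
    Subgroup.subset_closure ⟨x, hx, 1, by simp⟩
  have cl_conj : ∀ s k, ∀ z ∈ cl s, δ k * z * (δ k)⁻¹ ∈ cl s := by
    intro s k
    have : cl s ≤ (cl s).comap (MulAut.conj (δ k)).toMonoidHom := by
      refine (Subgroup.closure_le _).2 ?_
      rintro _ ⟨x, hx, k', rfl⟩
      refine Subgroup.subset_closure ⟨x, hx, k * k', ?_⟩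
      show δ k * _ * (δ k)⁻¹ = _
      rw [map_mul]; group
    exact fun z hz => this hz
  have cl_A : ∀ g s (W : Subgroup (P → Γ)), (∀ k, ∀ z ∈ W, δ k * z * (δ k)⁻¹ ∈ W) →
      (∀ x ∈ s, A g x ∈ W) → ∀ z ∈ cl s, A g z ∈ W := by
    intro g s W hW hs
    have : cl s ≤ W.comap (A g) := by
      refine (Subgroup.closure_le _).2 ?_
      rintro _ ⟨x, hx, k', rfl⟩
      show A g _ ∈ W
      rw [map_mul, map_mul, map_inv, Aδ]
      exact hW _ _ (hs x hx)
    exact fun z hz => this hz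
  let e : P → Γ := fun q => ⁅(q : Γ), n⁆
  have heY : e ∈ Y := by
    refine ⟨?_, fun q => commutator_mem_commutator q.2 hn, by simp [e]⟩
    have : e = y * δ n * y⁻¹ * (δ n)⁻¹ := rfl
    rw [this]
    exact mul_mem (mul_mem (mul_mem hyG (hδG n)) (inv_mem hyG)) (inv_mem (hδG n))
  obtain ⟨F', hF', heF, horb, hall⟩ := orbit_fg (fun g x => A g x) A1 Amul
    (fun s => cl s) Y AY cl_ext
    (fun s t h => by
      refine (Subgroup.closure_le _).2 ?_
      rintro _ ⟨x, hx, k, rfl⟩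
      exact cl_conj t k x (h hx))
    (fun s x hx => closure_fin (fun x z => ∃ k, z = δ k * x * (δ k)⁻¹) s x hx)
    (fun g s x hx => cl_A g s _ (cl_conj _)
      (fun x hx => cl_ext (A g '' s) (Set.mem_image_of_mem _ hx)) x hx)
    (by
      intro t s hsY hts x hx
      let _ : CommGroup Y := { (inferInstance : Group Y) with
        mul_comm := fun a b => Subtype.ext (funext fun q =>
          hC _ (a.2.2.1 q) _ (commutator_le_right _ _ (b.2.2.1 q))) }
      let p1 : (P → Γ) →* (P × P → Γ) := MonoidHom.mk' (fun x q => x q.1) fun _ _ => rfl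
      let p2 : (P → Γ) →* (P × P → Γ) := MonoidHom.mk' (fun x q => x q.2) fun _ _ => rfl
      let G2 : Subgroup (P × P → Γ) :=
        Subgroup.closure (p1 '' (δ '' Xs ∪ {y}) ∪ p2 '' (δ '' Xs ∪ {y}))
      have hS : (δ '' Xs ∪ {y}).Finite := (hXfin.image _).union (Set.finite_singleton _)
      have hGfg : Group.FG G2 := (Group.fg_iff_subgroup_fg _).2
        ((Subgroup.fg_iff _).2 ⟨_, rfl, (hS.image _).union (hS.image _)⟩)
      have hGV : InVar L G2 := (InVar.pi fun _ : P × P => hΓ).subgroup G2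
      have m1 : ∀ z ∈ Gt, p1 z ∈ G2 := fun z hz => by
        have h1 : p1 z ∈ Gt.map p1 := ⟨z, hz, rfl⟩
        rw [MonoidHom.map_closure] at h1
        exact Subgroup.closure_mono Set.subset_union_left h1
      have m2 : ∀ z ∈ Gt, p2 z ∈ G2 := fun z hz => by
        have h1 : p2 z ∈ Gt.map p2 := ⟨z, hz, rfl⟩
        rw [MonoidHom.map_closure] at h1
        exact Subgroup.closure_mono Set.subset_union_right h1
      have hGN : ∀ g ∈ G2, ∀ q, (g 1)⁻¹ * g q ∈ N := by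
        intro g hg q
        induction hg using Subgroup.closure_induction with
        | mem g hg =>
          rcases hg with ⟨_, ⟨k, -, rfl⟩ | rfl, rfl⟩ | ⟨_, ⟨k, -, rfl⟩ | rfl, rfl⟩
          · exact (inv_mul_cancel k).symm ▸ one_mem N
          · exact mul_mem (inv_mem (hPN (1 : P × P).1.2)) (hPN q.1.2)
          · exact (inv_mul_cancel k).symm ▸ one_mem N
          · exact mul_mem (inv_mem (hPN (1 : P × P).2.2)) (hPN q.2.2)
        | one => simp
        | mul a b _ _ ha hb =>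
          have e : ((a * b) 1)⁻¹ * (a * b) q =
              (b 1)⁻¹ * ((a 1)⁻¹ * a q) * (b 1)⁻¹⁻¹ * ((b 1)⁻¹ * b q) := by
            simp only [Pi.mul_apply]; group
          rw [e]
          exact mul_mem (this.conj_mem _ ha _) hb
        | inv a _ ha =>
          have e : (a⁻¹ 1)⁻¹ * a⁻¹ q = a 1 * ((a 1)⁻¹ * a q)⁻¹ * (a 1)⁻¹ := by
            simp only [Pi.inv_apply]; group
          rw [e]
          exact this.conj_mem _ (inv_mem ha) _
      let i : Y × Y →* G2 := MonoidHom.mk'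
        (fun z => ⟨p1 z.1 * p2 z.2, mul_mem (m1 _ z.1.2.1) (m2 _ z.2.2.1)⟩)
        (fun a b => Subtype.ext (funext fun q => by
          show a.1.1 q.1 * b.1.1 q.1 * (a.2.1 q.2 * b.2.1 q.2) =
            a.1.1 q.1 * a.2.1 q.2 * (b.1.1 q.1 * b.2.1 q.2)
          have h1 := hC _ (b.1.2.2.1 q.1) _ (commutator_le_right _ _ (a.2.2.2.1 q.2))
          rw [mul_assoc, mul_assoc, ← mul_assoc (b.1.1 q.1), h1, mul_assoc]))
      have hi : Function.Injective i := by
        intro a b h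
        have h1 : ∀ q : P × P, a.1.1 q.1 * a.2.1 q.2 = b.1.1 q.1 * b.2.1 q.2 :=
          fun q => congrFun (congrArg Subtype.val h) q
        refine Prod.ext (Subtype.ext (funext fun q => ?_)) (Subtype.ext (funext fun q => ?_))
        · have h2 := h1 (q, 1)
          rwa [a.2.2.2.2, b.2.2.2.2, mul_one, mul_one] at h2
        · have h2 := h1 (1, q)
          rwa [a.1.2.2.2, b.1.2.2.2, one_mul, one_mul] at h2
      let α : Y →* Y := ((A t).comp Y.subtype).codRestrict Y fun x => AY t x x.2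
      have hα : Function.Surjective α := by
        intro z
        refine ⟨⟨A t⁻¹ z, AY _ _ z.2⟩, Subtype.ext ?_⟩
        show A t (A t⁻¹ z) = z
        rw [← Amul, mul_inv_cancel, A1]
      refine dbl hL hGV hGfg i hi α hα ((cl s).subgroupOf Y)
        (fun z hz => cl_A t s _ (cl_conj _) hts z hz)
        (fun g => ⟨((MulAut.conj (δ (g.1 1))).toMonoidHom.comp Y.subtype).codRestrict Y
          fun x => δY _ x x.2, fun a b => Subtype.ext (funext fun q => ?_), fun a => rfl,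
          fun a ha => cl_conj s _ _ ha⟩) ⟨A t⁻¹ x, AY _ _ (hsY hx)⟩ ?_
      · show g.1 q * (a.1 q.1 * b.1 q.2) * (g.1 q)⁻¹ =
          g.1 1 * a.1 q.1 * (g.1 1)⁻¹ * (g.1 1 * b.1 q.2 * (g.1 1)⁻¹)
        have h1 := hC _ (mul_mem (a.2.2.1 q.1) (b.2.2.1 q.2)) _ (hGN g.1 g.2 q)
        calc _ = g.1 1 * ((g.1 1)⁻¹ * g.1 q * (a.1 q.1 * b.1 q.2)) * (g.1 q)⁻¹ := by group
          _ = _ := by rw [← h1]; group
      · show A t (A t⁻¹ x) ∈ cl s
        rw [← Amul, mul_inv_cancel, A1]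
        exact cl_ext s hx)
    hN {e} (Set.finite_singleton e) (Set.singleton_subset_iff.2 heY) (by
      rintro g hg _ rfl
      have : A g e = e := by
        funext q
        show ⁅g⁻¹ * q * g, n⁆ = ⁅(q : Γ), n⁆
        have hz : ⁅(q : Γ), g⁻¹⁆ ∈ ⁅P, N⁆ := commutator_mem_commutator q.2 (inv_mem hg)
        have e1 : g⁻¹ * q * g = ⁅(q : Γ), g⁻¹⁆⁻¹ * q := by
          rw [commutatorElement_def]; group
        rw [e1]
        generalize ⁅(q : Γ), g⁻¹⁆ = z at hz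
        have h3 : z * ⁅(q : Γ), n⁆ = ⁅(q : Γ), n⁆ * z :=
          hC z hz _ (commutator_le_right _ _ (commutator_mem_commutator q.2 hn))
        have h4 := hC z hz n hn
        calc ⁅z⁻¹ * q, n⁆ = z⁻¹ * ⁅(q : Γ), n⁆ * (n * z) * n⁻¹ := by
              simp only [commutatorElement_def]; group
          _ = z⁻¹ * (⁅(q : Γ), n⁆ * z) := by rw [← h4]; group
          _ = _ := by rw [← h3]; group
      show A g e ∈ cl {e}
      rw [this]
      exact cl_ext _ rfl)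
  have horb' : ∀ z : F', ∃ g : Γ, (z : P → Γ) = A g e := by
    intro z
    obtain ⟨g, _, rfl, h⟩ := horb z z.2
    exact ⟨g, h⟩
  choose g hg using horb'
  have := hF'.to_subtype
  refine ⟨Set.range fun z => (g z)⁻¹, Set.finite_range _, fun a => ?_⟩
  have h1 : A a⁻¹ e ∈ cl F' := hall a⁻¹ e (heF rfl)
  have h2 : A a⁻¹ e = fun q : P => ⁅a * q * a⁻¹, n⁆ := by
    funext q; show ⁅a⁻¹⁻¹ * q * a⁻¹, n⁆ = _; rw [inv_inv]
  rw [← h2]
  refine Subgroup.closure_mono ?_ h1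
  rintro _ ⟨x, hx, k, rfl⟩
  refine ⟨(g ⟨x, hx⟩)⁻¹, ⟨_, rfl⟩, k, ?_⟩
  have h3 : x = A (g ⟨x, hx⟩) e := hg ⟨x, hx⟩
  funext q
  show k * x q * k⁻¹ = _
  rw [inv_inv, congrFun h3 q]
  rfl

theorem comm_fg_bot (hL : SmallVar L) (hΓ : InVar L Γ) (hfg : Group.FG Γ) {N P : Subgroup Γ}
    (hN : PA N) [P.Normal] (hPN : P ≤ N) (hC : ∀ c ∈ ⁅P, N⁆, ∀ n ∈ N, c * n = n * c)
    (FP : Set Γ) (hFP : FP.Finite) (hFPP : FP ⊆ P) (hP : P ≤ ⁅P, N⁆ ⊔ normalClosure FP) :
    ∃ F : Set Γ, F.Finite ∧ F ⊆ (⁅P, N⁆ : Subgroup Γ) ∧ ⁅P, N⁆ ≤ normalClosure F := by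
  obtain ⟨FN, hFN, hFNN, hNF⟩ := hN.normal_fg hfg
  choose! F0 hF0 hF0' using univ_orbit hL hΓ hfg hN hPN hC
  let F : Set Γ := ⋃ n ∈ FN, (fun z : Γ × Γ => ⁅z.1 * z.2 * z.1⁻¹, n⁆) '' (F0 n ×ˢ FP)
  have hF : F.Finite := hFN.biUnion fun n hn => ((hF0 n (hFNN hn)).prod hFP).image _
  refine ⟨F, hF, ?_, ?_⟩
  · intro x hx
    simp only [F, Set.mem_iUnion] at hx
    obtain ⟨n, hn, z, hz, rfl⟩ := hx
    exact commutator_mem_commutator (Normal.conj_mem inferInstance _ (hFPP hz.2) _) (hFNN hn)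
  · have h1 : ∀ n ∈ FN, ∀ p ∈ FP, ∀ a : Γ, ⁅a * p * a⁻¹, n⁆ ∈ normalClosure F := by
      intro n hn p hp a
      have h2 := hF0' n (hFNN hn) a
      have h3 := (Subgroup.closure_le ((normalClosure F).comap
        (Pi.evalMonoidHom (fun _ : P => Γ) ⟨p, hFPP hp⟩))).2 (by
          rintro _ ⟨f, hf, k, rfl⟩
          refine Normal.conj_mem inferInstance _ (subset_normalClosure ?_) k
          simp only [F, Set.mem_iUnion]
          exact ⟨n, hn, (f, p), ⟨hf, hp⟩, rfl⟩) h2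
      exact h3
    refine comm_le_of_gen ((⁅P, N⁆ : Subgroup Γ) ∪ Group.conjugatesOfSet FP)
      (Group.conjugatesOfSet FN) ?_ hNF ?_
    · rw [Subgroup.closure_union, Subgroup.closure_eq]; exact hP
    · intro s hs t ht
      obtain ⟨n, hn, hnt⟩ := Group.mem_conjugatesOfSet_iff.1 ht
      obtain ⟨k, rfl⟩ := isConj_iff.1 hnt
      rcases hs with hs | hs
      · have := hN.normal
        have h4 := hC s hs _ (Normal.conj_mem inferInstance _ (hFNN hn) k)
        rw [commutatorElement_eq_one_iff_mul_comm.2 h4]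
        exact one_mem _
      · obtain ⟨p, hp, hps⟩ := Group.mem_conjugatesOfSet_iff.1 hs
        obtain ⟨a, rfl⟩ := isConj_iff.1 hps
        have e : ⁅a * p * a⁻¹, k * n * k⁻¹⁆ = k * ⁅(k⁻¹ * a) * p * (k⁻¹ * a)⁻¹, n⁆ * k⁻¹ := by
          simp only [commutatorElement_def]; group
        rw [e]
        exact Normal.conj_mem inferInstance _ (h1 n hn p hp _) k

theorem comm_fg (hL : SmallVar L) (hΓ : InVar L Γ) (hfg : Group.FG Γ) {N P : Subgroup Γ}
    (hN : PA N) [P.Normal] (hPN : P ≤ N)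
    (FP : Set Γ) (hFP : FP.Finite) (hFPP : FP ⊆ P) (hP : P ≤ ⁅P, N⁆ ⊔ normalClosure FP) :
    ∃ F : Set Γ, F.Finite ∧ F ⊆ (⁅P, N⁆ : Subgroup Γ) ∧
      ⁅P, N⁆ ≤ ⁅⁅P, N⁆, N⁆ ⊔ normalClosure F := by
  have := hN.normal
  let Q : Subgroup Γ := ⁅⁅P, N⁆, N⁆
  let π := QuotientGroup.mk' Q
  have hπ : Function.Surjective π := QuotientGroup.mk'_surjective Q
  have : (P.map π).Normal := Normal.map inferInstance π hπ
  obtain ⟨F', hF', hF'C, hCF'⟩ := comm_fg_bot hL (hΓ.quot Q) inferInstance (hN.map π hπ)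
    (map_mono hPN : P.map π ≤ N.map π) (by
      rw [← Subgroup.map_commutator]
      rintro _ ⟨c, hc, rfl⟩ _ ⟨n, hn, rfl⟩
      have : π ⁅c, n⁆ = 1 := (QuotientGroup.eq_one_iff _).2 (commutator_mem_commutator hc hn)
      rwa [map_commutatorElement, commutatorElement_eq_one_iff_mul_comm] at this)
    (π '' FP) (hFP.image _) (Set.image_mono hFPP) (by
      rw [← Subgroup.map_commutator, ← map_normalClosure _ _ hπ, ← Subgroup.map_sup]
      exact map_mono hP)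
  rw [← Subgroup.map_commutator] at hF'C hCF'
  obtain ⟨F, hF, hFX, hFF⟩ := lift_fin π _ F' hF' hF'C
  refine ⟨F, hF, hFX, le_sup_of_map_le Q ?_⟩
  rw [map_normalClosure _ _ hπ, hFF]
  exact hCF'

theorem maxn_of_np (hL : SmallVar L) (hΓ : InVar L Γ) (hfg : Group.FG Γ) {N : Subgroup Γ}
    (hN : PA N) (c : ℕ) (hc : lcs N c = ⊥) : NFG (⊥ : Subgroup Γ) ⊤ := by
  have := hN.normal
  have h1 : ∀ i, ∃ F : Set Γ, F.Finite ∧ F ⊆ lcs N i ∧
      lcs N i ≤ lcs N (i + 1) ⊔ normalClosure F := by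
    intro i
    induction i with
    | zero =>
      obtain ⟨F, a, b, c⟩ := hN.normal_fg hfg
      exact ⟨F, a, b, c.trans le_sup_right⟩
    | succ i ih =>
      obtain ⟨F, a, b, c⟩ := ih
      exact comm_fg hL hΓ hfg hN (lcs_le N i) F a b c
  have h2 : ∀ i, NFG (lcs N i) ⊤ := by
    intro i
    induction i with
    | zero => exact hN.nfg
    | succ i ih =>
      obtain ⟨F, a, b, c⟩ := h1 i
      exact NFG.trans (commutator_le_left _ _) le_top
        (nfg_factor hN (lcs_le N i) le_rfl F a b c) ih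
  exact hc ▸ h2 c

theorem class_reduction (hL : SmallVar L) (hΓ : InVar L Γ) (hfg : Group.FG Γ) {N P : Subgroup Γ}
    (hN : PA N) [P.Normal] (hPN : P ≤ N) (hC : ∀ c ∈ ⁅P, N⁆, ∀ n ∈ N, c * n = n * c)
    (hrec : Recur ⁅P, N⁆) : PA (N ⊓ centralizer (P : Set Γ)) := by
  have := hN.normal
  obtain ⟨FN, hFN, hFNN, hNF⟩ := hN.normal_fg hfg
  choose! F0 hF0 hF0' using univ_orbit hL hΓ hfg hN hPN hC
  let δ : Γ →* (P → Γ) := Pi.constMonoidHom P Γ
  let φ : Γ →* MulAut (P → Γ) := MulAut.conj.comp δ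
  have hφ : ∀ k x q, φ k x q = k * x q * k⁻¹ := fun _ _ _ => rfl
  let Y : Set (P → Γ) := {x | ∀ q, x q ∈ ⁅P, N⁆}
  have hCN : ⁅P, N⁆ ≤ N := commutator_le_right _ _
  let F : Set (P → Γ) := ⋃ n ∈ FN, (fun f : Γ => fun q : P => ⁅f * q * f⁻¹, n⁆) '' (F0 n)
  have hF : F.Finite := hFN.biUnion fun n hn => (hF0 n (hFNN hn)).image _
  have hFY : F ⊆ Y := by
    intro x hx
    simp only [F, Set.mem_iUnion] at hx
    obtain ⟨n, hn, f, hf, rfl⟩ := hx
    exact fun q => commutator_mem_commutator (Normal.conj_mem inferInstance _ q.2 _) (hFNN hn)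
  obtain ⟨F', hF', hF'Y, hall⟩ := orbit_fin φ Y
    (fun g x hx q => Normal.conj_mem inferInstance _ (hx q) g) hN
    (fun g hg x hx => by
      funext q
      rw [hφ, ← hC _ (hx q) g hg]; group)
    (fun t => by
      obtain ⟨w, hw⟩ := hrec t
      refine ⟨w, fun x hx => ?_⟩
      funext q
      have h1 := hw _ (hx q)
      have h2 : (Pi.evalMonoidHom (fun _ : P => Γ) q).comp
          (FreeGroup.lift fun i : ℕ => φ (t ^ (i + 1)) x) =
          FreeGroup.lift (fun i : ℕ => t ^ (i + 1) * x q * (t ^ (i + 1))⁻¹) := by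
        ext i
        simp only [MonoidHom.comp_apply, FreeGroup.lift_apply_of]
        exact hφ _ _ _
      rw [h1, ← h2]; rfl) F hF hFY
  let ε : N →* (P → Γ) := MonoidHom.mk' (fun n q => ⁅(q : Γ), (n : Γ)⁆) (by
    intro a b
    funext q
    show ⁅(q : Γ), (a : Γ) * b⁆ = ⁅(q : Γ), (a : Γ)⁆ * ⁅(q : Γ), (b : Γ)⁆
    have h1 := hC _ (commutator_mem_commutator q.2 b.2) a a.2
    calc ⁅(q : Γ), (a : Γ) * b⁆ = ⁅(q : Γ), (a : Γ)⁆ * (a * ⁅(q : Γ), (b : Γ)⁆) * (a : Γ)⁻¹ := by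
          simp only [commutatorElement_def]; group
      _ = _ := by rw [← h1]; group)
  have hrange : ε.range ≤ Subgroup.closure F' := by
    have h1 : normalClosure FN ≤ ((Subgroup.closure F').comap ε).map N.subtype := by
      refine (Subgroup.closure_le _).2 fun x hx => ?_
      obtain ⟨n, hn, hnt⟩ := Group.mem_conjugatesOfSet_iff.1 hx
      obtain ⟨k, rfl⟩ := isConj_iff.1 hnt
      refine ⟨⟨k * n * k⁻¹, Normal.conj_mem inferInstance _ (hFNN hn) k⟩, ?_, rfl⟩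
      have h2 := hF0' n (hFNN hn) k⁻¹
      have h3 := (Subgroup.closure_le ((Subgroup.closure F').comap (φ k).toMonoidHom)).2 (by
        rintro _ ⟨f, hf, k', rfl⟩
        have h4 := hall (k * k') (fun q : P => ⁅f * q * f⁻¹, n⁆) (by
          simp only [F, Set.mem_iUnion]
          exact ⟨n, hn, f, hf, rfl⟩)
        rw [map_mul] at h4
        exact h4) h2
      show ε _ ∈ Subgroup.closure F'
      have h5 : φ k (fun q : P => ⁅k⁻¹ * q * k⁻¹⁻¹, n⁆) ∈ Subgroup.closure F' := h3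
      convert h5 using 1
      funext q
      show ⁅(q : Γ), k * n * k⁻¹⁆ = k * ⁅k⁻¹ * q * k⁻¹⁻¹, n⁆ * k⁻¹
      simp only [commutatorElement_def]; group
    rintro _ ⟨n, rfl⟩
    obtain ⟨n', hn', e⟩ := h1 (hNF n.2)
    rwa [← Subtype.ext e]
  obtain ⟨F3, hF3, hcl⟩ := fg_of_le_closure' F' hF' (fun a ha b hb => by
    funext q
    exact hC _ (hF'Y ha q) _ (hCN (hF'Y hb q))) _ hrange
  obtain ⟨F4, hF4, -, hF43⟩ := lift_fin ε ⊤ F3 hF3 (by
    rw [← MonoidHom.range_eq_map, ← hcl]; exact Subgroup.subset_closure)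
  have hker : ∀ n : N, ε n = 1 → (n : Γ) ∈ N ⊓ centralizer (P : Set Γ) := by
    intro n hn
    refine ⟨n.2, Subgroup.mem_centralizer_iff.2 fun q hq => ?_⟩
    exact commutatorElement_eq_one_iff_mul_comm.1 (congrFun hn ⟨q, hq⟩)
  refine PA.step N _ (hF4.image N.subtype).toFinset hN inferInstance inf_le_left ?_ ?_ ?_
  · intro a ha b hb
    refine hker (⟨a, ha⟩ * ⟨b, hb⟩ * ⟨a, ha⟩⁻¹ * ⟨b, hb⟩⁻¹) ?_
    have : ε ⟨a, ha⟩ * ε ⟨b, hb⟩ = ε ⟨b, hb⟩ * ε ⟨a, ha⟩ := by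
      funext q
      exact hC _ (commutator_mem_commutator q.2 ha) _ (hCN (commutator_mem_commutator q.2 hb))
    simp only [map_mul, map_inv]
    rw [this]; group
  · rw [Set.Finite.coe_toFinset]
    rintro _ ⟨x, -, rfl⟩
    exact x.2
  · rw [Set.Finite.coe_toFinset, ← MonoidHom.map_closure]
    intro n hn
    have h5 : ε ⟨n, hn⟩ ∈ (Subgroup.closure F4).map ε := by
      rw [MonoidHom.map_closure, hF43, hcl]; exact ⟨_, rfl⟩
    obtain ⟨v, hv, e⟩ := h5
    have e2 : n = (n * (v : Γ)⁻¹) * v := by group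
    rw [e2]
    refine mul_mem (mem_sup_left (hker (⟨n, hn⟩ * v⁻¹) ?_)) (mem_sup_right ⟨v, hv, rfl⟩)
    rw [map_mul, map_inv, e, mul_inv_cancel]

theorem pa_bot (hL : SmallVar L) (hΓ : InVar L Γ) (hfg : Group.FG Γ) (N₀ : Subgroup Γ)
    (hrec : ∀ N B : Subgroup Γ, PA N → N ≤ N₀ → B.Normal → B ≤ N →
      (∀ b ∈ B, ∀ n ∈ N, b * n = n * b) → Recur B) :
    ∀ (c : ℕ) (N : Subgroup Γ), PA N → N ≤ N₀ → lcs N c = ⊥ → PA (⊥ : Subgroup Γ)
  | 0, N, hN, _, hc => by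
    have : N = ⊥ := hc
    exact this ▸ hN
  | 1, N, hN, h0, hc => by
    have h1 : ∀ a ∈ N, ∀ b ∈ N, a * b = b * a := by
      intro a ha b hb
      have h2 : ⁅a, b⁆ ∈ lcs N 1 := commutator_mem_commutator ha hb
      rw [hc, Subgroup.mem_bot] at h2
      exact commutatorElement_eq_one_iff_mul_comm.1 h2
    exact pa_bot_of_comm hfg hN h1 (hrec N N hN h0 hN.normal le_rfl h1)
  | c + 2, N, hN, h0, hc => by
    have := hN.normal
    have h1 : ∀ a ∈ ⁅lcs N c, N⁆, ∀ b ∈ N, a * b = b * a := by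
      intro a ha b hb
      have h2 : ⁅a, b⁆ ∈ lcs N (c + 2) := commutator_mem_commutator ha hb
      rw [hc, Subgroup.mem_bot] at h2
      exact commutatorElement_eq_one_iff_mul_comm.1 h2
    have h3 := class_reduction hL hΓ hfg hN (lcs_le N c) h1
      (hrec N _ hN h0 inferInstance (commutator_le_right _ _) h1)
    refine pa_bot hL hΓ hfg N₀ hrec (c + 1) _ h3 (inf_le_left.trans h0) ?_
    rw [lcs, eq_bot_iff, Subgroup.commutator_le]
    intro a ha b hb
    rw [Subgroup.mem_bot, commutatorElement_eq_one_iff_mul_comm]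
    exact Subgroup.mem_centralizer_iff.1 hb.2 a (lcs_mono inf_le_left c ha)

end Pool.Agent.Lib.MP_ab1175_al.HD
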